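import Mathlib

/-!
# MP_5ee2d0_ag, numerical dimension two: the height over a complete curve

Setting. `π : Y → B` is a projective family over a smooth projective curve `B`, not isotrivial; the
general fibre is a Calabi-Yau threefold, `Y` is a fourfold with Gorenstein terminal singularities and
`K_Y` is nef and numerically a multiple of the class `F` of a fibre. `H = 2 H'` for a very ample
class `H'` of `Y`, and `S` is a very general member of `|H|`. `N` is a class of `Y` which is nef over `B`. It restricts to a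
class `L` of numerical dimension two of the general fibre, no positive multiple of `L` is effective,
`c₂.L = 0`, and the surfaces on which `L` is numerically trivial have been contracted.

For `n > 0` all direct images of `n N` are zero except the first, which is a torsion sheaf of length
`len n`. Riemann-Roch gives `- len n = (N^4 n^4 + c₂(Y).N^2 n^2) / 24 + deg λ`. We show `N^4 < 0`.
Otherwise `N^4 = 0`; then the restricted volumes of `N + k F + d H` along `S` are equal to the
volumes of the restrictions, so `N + k F` is nef, and Miyaoka's inequality contradicts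
Riemann-Roch. Hence sections of `n N` on some special fibre lift to order `≥ c n ^ 2`.
-/

namespace Pool.Agent.H18.MH

open Filter Topology

/-- Numerical classes of divisors of a projective fourfold which is fibred over a curve. -/
structure Four where
  /-- the real Néron-Severi space -/
  V : Type
  [grp : AddCommGroup V]
  [mod : Module ℝ V]
  /-- the intersection number of four classes -/
  I : V → V → V → V → ℝ
  I_add : ∀ a b x y z, I (a + b) x y z = I a x y z + I b x y z
  I_smul : ∀ (r : ℝ) a x y z, I (r • a) x y z = r * I a x y z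
  I_swap : ∀ a b x y, I a b x y = I b a x y
  I_rot : ∀ a b x y, I a b x y = I b x y a
  /-- the integral curves -/
  Cu : Type
  /-- the degree of a class on a curve -/
  deg : V → Cu → ℝ
  deg_add : ∀ a b c, deg (a + b) c = deg a c + deg b c
  deg_smul : ∀ (r : ℝ) a c, deg (r • a) c = r * deg a c
  /-- the class of a fibre; the curves in the fibres are the curves of degree zero -/
  F : V
  deg_F : ∀ c, 0 ≤ deg F c
  /-- two fibres are disjoint -/
  F_sq : ∀ x y, I F F x y = 0
  /-- a very ample class -/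
  H : V
  deg_H : ∀ c, 0 < deg H c

attribute [instance] Four.grp Four.mod

namespace Four

variable (Y : Four)

/-- nef -/
def Nef (x : Y.V) : Prop := ∀ c, 0 ≤ Y.deg x c

/-- nef over the base -/
def RelNef (x : Y.V) : Prop := ∀ c, Y.deg Y.F c = 0 → 0 ≤ Y.deg x c

/-- The restriction of the class to the subvariety which contains the curves `c` with `On c` is
ample (Kleiman's criterion); for the curves in the fibres: ample over the base. -/
def AmpleOn (On : Y.Cu → Prop) (x : Y.V) : Prop :=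
  ∃ e : ℝ, 0 < e ∧ ∀ c, On c → e * Y.deg Y.H c ≤ Y.deg x c

end Four

/-- Volumes of classes of `Y` and restricted volumes along `S`, a very general member of `|H|`. -/
structure Vol (Y : Four) where
  /-- the curve lies on `S` -/
  On : Y.Cu → Prop
  /-- the volume -/
  vol : Y.V → ℝ
  /-- the restricted volume along `S` -/
  rvol : Y.V → ℝ
  /-- the volume is continuous (Lazarsfeld, Positivity in Algebraic Geometry I, 2.2.C) -/
  cont : ∀ x, Continuous fun t : ℝ => vol (x + t • Y.H)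
  /-- and differentiable at a big class, the derivative being the restricted volume (Boucksom, Favre,
  Jonsson 2009; Lazarsfeld, Mustață 2009, Corollary C) -/
  deriv : ∀ x, 0 < vol x → HasDerivAt (fun t : ℝ => vol (x + t • Y.H)) (4 * rvol x) 0
  /-- If `x` is ample over `B`, then the direct images of the multiples `n x` are vector bundles, the
  higher direct images are zero, and a vector bundle on a curve has at least as many sections as its
  Euler characteristic says. -/
  ge : ∀ x, Y.AmpleOn (fun c => Y.deg Y.F c = 0) x → Y.I x x x x ≤ vol x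
  /-- A big class restricts to a big class of a general fibre, and a nef class of a threefold is big
  if and only if its cube is positive. -/
  zero : ∀ x, Y.RelNef x → Y.I x x x Y.F = 0 → vol x = 0
  /-- the cube of an ample class of `S` is positive -/
  cube_pos : ∀ x, Y.AmpleOn On x → 0 < Y.I x x x Y.H
  /-- the restricted volume is at most the volume of the restriction, which is `x^3.S` if the
  restriction is ample -/
  rvol_le : ∀ x, 0 < vol x → Y.AmpleOn On x → rvol x ≤ Y.I x x x Y.H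
  /-- the asymptotic order of vanishing (with respect to the powers of the maximal ideals) of the
  class at the points of a curve -/
  ord : Y.V → Y.Cu → ℝ
  /-- It is positive on the curves of negative degree: they lie in the restricted base locus (Ein,
  Lazarsfeld, Mustață, Nakamaye, Popa 2006; on a resolution, for the singular points of `Y`). -/
  ord_pos : ∀ x c, 0 < vol x → Y.deg x c < 0 → 0 < ord x c
  /-- the Seshadri constant of the restriction of the class to `S` at a point of the curve -/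
  sesh : Y.V → Y.Cu → ℝ
  sesh_pos : ∀ x c, Y.AmpleOn On x → 0 < sesh x c
  /-- The restrictions to `S` of the sections of `n x` vanish to order about `n ord` at a point of
  `S` on the curve; up to the Seshadri constant the conditions are independent. -/
  rvol_ord : ∀ x c, 0 < vol x → Y.AmpleOn On x →
    rvol x ≤ Y.I x x x Y.H - (min (ord x c) (sesh x c)) ^ 3

/-- The family and the class `N`. -/
structure Fam where
  Y : Four
  W : Vol Y
  /-- the class `N` -/
  N : Y.V
  relnef : Y.RelNef N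
  /-- `L^3 = 0` -/
  cube : Y.I N N N Y.F = 0
  /-- `L^2 ≠ 0` and there is no surface on which `L` is numerically trivial, so the curves of degree
  zero move in families of dimension at most two, a very general member of `|2 H'|` contains none of
  them, and the restriction of `L` to it is ample. So, for a small `e` and a large
  `k`, a positive multiple of `N - e H + k F` is generated by its sections on `S` outside finitely
  many fibres. -/
  gen : ∃ e k : ℝ, 0 < e ∧ ∀ c, W.On c → Y.deg Y.F c ≠ 0 →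
    e * Y.deg Y.H c ≤ Y.deg N c + k * Y.deg Y.F c
  /-- the intersection number of two classes with the second Chern class of `Y` -/
  C : Y.V → Y.V → ℝ
  C_add : ∀ a b x, C (a + b) x = C a x + C b x
  C_smul : ∀ (r : ℝ) a x, C (r • a) x = r * C a x
  C_symm : ∀ a b, C a b = C b a
  C_F : C Y.F Y.F = 0
  /-- `c₂.L = 0` -/
  C_N : C N Y.F = 0
  /-- Miyaoka 1987: `K_Y` is nef -/
  miyaoka : ∀ x, Y.Nef x → 0 ≤ C x x
  /-- `K_Y` is numerically `κ F` -/
  κ : ℝ
  /-- a positive multiple of `N` which is Cartier -/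
  m : ℕ
  m_pos : 0 < m
  /-- the Euler characteristic of `n m N` -/
  chi : ℕ → ℝ
  /-- Riemann-Roch -/
  rr : ∀ n : ℕ, chi n = Y.I N N N N * (m * n) ^ 4 / 24 - κ * Y.I N N N Y.F * (m * n) ^ 3 / 12 +
    (κ ^ 2 * Y.I Y.F Y.F N N + C N N) * (m * n) ^ 2 / 24 - κ * C N Y.F * (m * n) / 24 + chi 0
  /-- Kollár: `χ(O_Y)` is the degree of the Hodge bundle `π_* ω_(Y/B)`; Griffiths: it is positive,
  the family is not isotrivial -/
  chi_zero : 0 < chi 0
  /-- the length of the first direct image of `n m N` -/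
  len : ℕ → ℕ
  /-- `L` has no effective multiples; Kawamata, Viehweg: no higher direct images -/
  chi_len : ∀ n : ℕ, 0 < n → chi n = - len n

namespace Four

variable (Y : Four)

theorem add₂ (a b x y z : Y.V) : Y.I a (b + x) y z = Y.I a b y z + Y.I a x y z := by
  rw [Y.I_swap, Y.I_add, Y.I_swap b, Y.I_swap x]

theorem smul₂ (r : ℝ) (a b x y : Y.V) : Y.I a (r • b) x y = r * Y.I a b x y := by
  rw [Y.I_swap, Y.I_smul, Y.I_swap b]

theorem rot₂ (a b x y : Y.V) : Y.I a b x y = Y.I x y a b := by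
  rw [Y.I_rot a, Y.I_rot b]

theorem add₃ (a b x y z : Y.V) : Y.I a b (x + y) z = Y.I a b x z + Y.I a b y z := by
  rw [Y.rot₂, Y.I_add, Y.rot₂ x, Y.rot₂ y]

theorem smul₃ (r : ℝ) (a b x y : Y.V) : Y.I a b (r • x) y = r * Y.I a b x y := by
  rw [Y.rot₂, Y.I_smul, Y.rot₂ x]

theorem add₄ (a b x y z : Y.V) : Y.I a b x (y + z) = Y.I a b x y + Y.I a b x z := by
  rw [Y.rot₂, Y.add₂, Y.rot₂ x, Y.rot₂ x]

theorem smul₄ (r : ℝ) (a b x y : Y.V) : Y.I a b x (r • y) = r * Y.I a b x y := by
  rw [Y.rot₂, Y.smul₂, Y.rot₂ x]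

theorem cubic (x h : Y.V) (d : ℝ) : Y.I (x + d • h) (x + d • h) (x + d • h) h =
    Y.I x x x h + 3 * d * Y.I x x h h + 3 * d ^ 2 * Y.I x h h h + d ^ 3 * Y.I h h h h := by
  have e1 : Y.I x h x h = Y.I x x h h := by rw [Y.I_swap, Y.I_rot]
  have e2 : Y.I h x x h = Y.I x x h h := Y.I_rot _ _ _ _
  have e3 : Y.I h x h h = Y.I x h h h := Y.I_rot _ _ _ _
  have e4 : Y.I h h x h = Y.I x h h h := by rw [Y.I_rot, Y.I_rot]
  simp only [Y.I_add, Y.I_smul, Y.add₂, Y.smul₂, Y.add₃, Y.smul₃]
  rw [e1, e2, e3, e4]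
  ring

theorem quartic (x h : Y.V) (d : ℝ) :
    Y.I (x + d • h) (x + d • h) (x + d • h) (x + d • h) =
      Y.I x x x x + 4 * d * Y.I x x x h + 6 * d ^ 2 * Y.I x x h h + 4 * d ^ 3 * Y.I x h h h +
        d ^ 4 * Y.I h h h h := by
  have e1 : Y.I h x x x = Y.I x x x h := Y.I_rot _ _ _ _
  have e2 : Y.I x h x x = Y.I x x x h := by rw [Y.I_swap, e1]
  have e3 : Y.I x x h x = Y.I x x x h := by rw [Y.I_rot, e2]
  have f1 : Y.I h h x x = Y.I x x h h := Y.rot₂ _ _ _ _
  have f2 : Y.I h x x h = Y.I x x h h := Y.I_rot _ _ _ _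
  have f3 : Y.I x h x h = Y.I x x h h := by rw [Y.I_swap, f2]
  have f4 : Y.I x h h x = Y.I x x h h := by rw [Y.I_rot, f1]
  have f5 : Y.I h x h x = Y.I x x h h := by rw [Y.I_swap, f4]
  have g1 : Y.I h x h h = Y.I x h h h := Y.I_rot _ _ _ _
  have g2 : Y.I h h x h = Y.I x h h h := by rw [Y.I_rot, g1]
  have g3 : Y.I h h h x = Y.I x h h h := by rw [Y.I_rot, g2]
  simp only [Y.I_add, Y.I_smul, Y.add₂, Y.smul₂, Y.add₃, Y.smul₃, Y.add₄, Y.smul₄]
  rw [e1, e2, e3, f1, f2, f3, f4, f5, g1, g2, g3]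
  ring

theorem hasDerivAt_quartic (x : Y.V) (t : ℝ) :
    HasDerivAt (fun t : ℝ => Y.I (x + t • Y.H) (x + t • Y.H) (x + t • Y.H) (x + t • Y.H))
      (4 * Y.I (x + t • Y.H) (x + t • Y.H) (x + t • Y.H) Y.H) t := by
  have h1 : (fun t : ℝ => Y.I (x + t • Y.H) (x + t • Y.H) (x + t • Y.H) (x + t • Y.H)) =
      fun t : ℝ => Y.I x x x x + 4 * t * Y.I x x x Y.H + 6 * t ^ 2 * Y.I x x Y.H Y.H +
        4 * t ^ 3 * Y.I x Y.H Y.H Y.H + t ^ 4 * Y.I Y.H Y.H Y.H Y.H := by
    funext t
    exact Y.quartic x Y.H t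
  rw [h1, Y.cubic]
  have a1 : HasDerivAt (fun t : ℝ => 4 * t * Y.I x x x Y.H) (4 * 1 * Y.I x x x Y.H) t :=
    ((hasDerivAt_id t).const_mul 4).mul_const _
  have a2 : HasDerivAt (fun t : ℝ => 6 * t ^ 2 * Y.I x x Y.H Y.H)
      (6 * (2 * t) * Y.I x x Y.H Y.H) t := by
    have := ((hasDerivAt_pow 2 t).const_mul 6).mul_const (Y.I x x Y.H Y.H)
    simpa using this
  have a3 : HasDerivAt (fun t : ℝ => 4 * t ^ 3 * Y.I x Y.H Y.H Y.H)
      (4 * (3 * t ^ 2) * Y.I x Y.H Y.H Y.H) t := by
    have := ((hasDerivAt_pow 3 t).const_mul 4).mul_const (Y.I x Y.H Y.H Y.H)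
    simpa using this
  have a4 : HasDerivAt (fun t : ℝ => t ^ 4 * Y.I Y.H Y.H Y.H Y.H)
      ((4 * t ^ 3) * Y.I Y.H Y.H Y.H Y.H) t := by
    have := (hasDerivAt_pow 4 t).mul_const (Y.I Y.H Y.H Y.H Y.H)
    simpa using this
  have a := (((a1.const_add (Y.I x x x x)).add a2).add a3).add a4
  refine a.congr_deriv ?_
  ring

end Four

namespace Fam

variable (X : Fam)

theorem FF (x y : X.Y.V) : X.Y.I x y X.Y.F X.Y.F = 0 := by
  rw [X.Y.rot₂, X.Y.F_sq]

/-- `(N + k F)^4 = N^4` -/
theorem top_add (k : ℝ) : X.Y.I (X.N + k • X.Y.F) (X.N + k • X.Y.F) (X.N + k • X.Y.F)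
    (X.N + k • X.Y.F) = X.Y.I X.N X.N X.N X.N := by
  rw [X.Y.quartic, X.cube, X.FF, X.FF, X.FF]
  ring

/-- `(N + k F)^3.F = 0` -/
theorem cube_add (k : ℝ) : X.Y.I (X.N + k • X.Y.F) (X.N + k • X.Y.F) (X.N + k • X.Y.F)
    X.Y.F = 0 := by
  rw [X.Y.cubic, X.cube, X.FF, X.FF, X.FF]
  ring

/-- If `N^4 = 0` then `N + k F` is nef for some `k`. -/
theorem exists_nef (h0 : X.Y.I X.N X.N X.N X.N = 0) : ∃ k : ℝ, X.Y.Nef (X.N + k • X.Y.F) := by
  obtain ⟨e, k, he, hgen⟩ := X.gen
  refine ⟨k, ?_⟩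
  have htop := X.top_add k
  have hcube := X.cube_add k
  have hdeg : ∀ c, X.Y.deg (X.N + k • X.Y.F) c = X.Y.deg X.N c + k * X.Y.deg X.Y.F c := by
    intro c
    rw [X.Y.deg_add, X.Y.deg_smul]
  generalize X.N + k • X.Y.F = A at htop hcube hdeg ⊢
  have hdegt : ∀ (t : ℝ) c, X.Y.deg (A + t • X.Y.H) c = X.Y.deg A c + t * X.Y.deg X.Y.H c := by
    intro t c
    rw [X.Y.deg_add, X.Y.deg_smul]
  have hrel : X.Y.RelNef A := by
    intro c hc
    rw [hdeg, hc, mul_zero, add_zero]
    exact X.relnef c hc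
  -- ample on `S` and ample over the base
  have hS : ∀ t : ℝ, 0 < t → X.Y.AmpleOn X.W.On (A + t • X.Y.H) := by
    intro t ht
    refine ⟨t, ht, fun c hc => ?_⟩
    rw [hdegt]
    by_cases hF : X.Y.deg X.Y.F c = 0
    · have := hrel c hF
      linarith
    · have h1 := hgen c hc hF
      have h2 := mul_pos he (X.Y.deg_H c)
      rw [hdeg]
      linarith
  have hR : ∀ t : ℝ, 0 < t → X.Y.AmpleOn (fun c => X.Y.deg X.Y.F c = 0) (A + t • X.Y.H) := by
    intro t ht
    refine ⟨t, ht, fun c hc => ?_⟩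
    rw [hdegt]
    have := hrel c hc
    linarith
  -- the two functions
  let f : ℝ → ℝ := fun t => X.W.vol (A + t • X.Y.H)
  let g : ℝ → ℝ := fun t => X.Y.I (A + t • X.Y.H) (A + t • X.Y.H) (A + t • X.Y.H) (A + t • X.Y.H)
  have hg : ∀ t, HasDerivAt g
      (4 * X.Y.I (A + t • X.Y.H) (A + t • X.Y.H) (A + t • X.Y.H) X.Y.H) t := fun t =>
    X.Y.hasDerivAt_quartic A t
  have hgc : Continuous g := continuous_iff_continuousAt.2 fun t => (hg t).continuousAt
  have hg0 : g 0 = 0 := by
    show X.Y.I (A + (0 : ℝ) • X.Y.H) (A + (0 : ℝ) • X.Y.H) (A + (0 : ℝ) • X.Y.H)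
      (A + (0 : ℝ) • X.Y.H) = 0
    rw [zero_smul, add_zero, htop, h0]
  have hf0 : f 0 = 0 := by
    show X.W.vol (A + (0 : ℝ) • X.Y.H) = 0
    rw [zero_smul, add_zero]
    exact X.W.zero A hrel hcube
  have hgpos : ∀ t, 0 < t → 0 < g t := by
    have hmono : StrictMonoOn g (Set.Ici 0) := by
      refine strictMonoOn_of_deriv_pos (convex_Ici 0) hgc.continuousOn fun t ht => ?_
      rw [interior_Ici] at ht
      rw [(hg t).deriv]
      exact mul_pos (by norm_num) (X.W.cube_pos _ (hS t ht))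
    intro t ht
    have := hmono (Set.mem_Ici.2 le_rfl) (Set.mem_Ici.2 ht.le) ht
    rwa [hg0] at this
  have hge : ∀ t : ℝ, 0 < t → g t ≤ f t := fun t ht => X.W.ge _ (hR t ht)
  have hvol : ∀ t : ℝ, 0 < t → 0 < X.W.vol (A + t • X.Y.H) := fun t ht =>
    lt_of_lt_of_le (hgpos t ht) (hge t ht)
  have hf : ∀ t, 0 < t → HasDerivAt f (4 * X.W.rvol (A + t • X.Y.H)) t := by
    intro t ht
    have h1 := X.W.deriv (A + t • X.Y.H) (hvol t ht)
    have h2 : HasDerivAt (fun s : ℝ => X.W.vol (A + t • X.Y.H + s • X.Y.H))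
        (4 * X.W.rvol (A + t • X.Y.H)) (t - t) := by rwa [sub_self]
    have h3 := h2.comp_sub_const t t
    refine h3.congr_of_eventuallyEq (Eventually.of_forall fun s => ?_)
    show X.W.vol (A + s • X.Y.H) = X.W.vol (A + t • X.Y.H + (s - t) • X.Y.H)
    rw [add_assoc, ← add_smul, add_sub_cancel]
  have hle : ∀ t, 0 ≤ t → f t ≤ g t := by
    have hanti : AntitoneOn (fun t => f t - g t) (Set.Ici 0) := by
      refine antitoneOn_of_deriv_nonpos (convex_Ici 0)
        ((X.W.cont A).sub hgc).continuousOn ?_ fun t ht => ?_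
      · intro t ht
        rw [interior_Ici] at ht
        exact ((hf t ht).sub (hg t)).differentiableAt.differentiableWithinAt
      · rw [interior_Ici] at ht
        change deriv (f - g) t ≤ 0
        rw [((hf t ht).sub (hg t)).deriv]
        have := X.W.rvol_le _ (hvol t ht) (hS t ht)
        linarith
    intro t ht
    have h := hanti (Set.mem_Ici.2 le_rfl) (Set.mem_Ici.2 ht) ht
    simp only [hf0, hg0] at h
    linarith
  have heq : ∀ t : ℝ, 0 < t → X.W.rvol (A + t • X.Y.H) =
      X.Y.I (A + t • X.Y.H) (A + t • X.Y.H) (A + t • X.Y.H) X.Y.H := by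
    intro t ht
    have h1 : f =ᶠ[𝓝 t] g := by
      filter_upwards [lt_mem_nhds ht] with s hs
      exact le_antisymm (hle s hs.le) (hge s hs)
    have h2 := ((hg t).congr_of_eventuallyEq h1).unique (hf t ht)
    linarith
  -- a curve of negative degree
  intro c
  by_contra hneg
  push Not at hneg
  have hH := X.Y.deg_H c
  have ht : 0 < - X.Y.deg A c / (2 * X.Y.deg X.Y.H c) := div_pos (by linarith) (by linarith)
  set t := - X.Y.deg A c / (2 * X.Y.deg X.Y.H c) with htdef
  have hdt : X.Y.deg (A + t • X.Y.H) c < 0 := by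
    rw [hdegt]
    have : t * X.Y.deg X.Y.H c = - X.Y.deg A c / 2 := by
      rw [htdef]
      field_simp
    rw [this]
    linarith
  have h1 := X.W.ord_pos _ c (hvol t ht) hdt
  have h2 := X.W.sesh_pos _ c (hS t ht)
  have h3 := X.W.rvol_ord _ c (hvol t ht) (hS t ht)
  have h4 : 0 < (min (X.W.ord (A + t • X.Y.H) c) (X.W.sesh (A + t • X.Y.H) c)) ^ 3 :=
    pow_pos (lt_min h1 h2) 3
  rw [heq t ht] at h3
  linarith

theorem chi_eq (n : ℕ) : X.chi n = X.Y.I X.N X.N X.N X.N * (X.m * n) ^ 4 / 24 +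
    X.C X.N X.N * (X.m * n) ^ 2 / 24 + X.chi 0 := by
  have h := X.rr n
  rw [X.cube, X.C_N, X.Y.F_sq] at h
  rw [h]
  ring

/-- THE HEIGHT: `N^4 < 0`. -/
theorem top_neg : X.Y.I X.N X.N X.N X.N < 0 := by
  by_contra hcon
  push Not at hcon
  have hm : (1 : ℝ) ≤ X.m := by exact_mod_cast X.m_pos
  have hchi := X.chi_zero
  rcases hcon.eq_or_lt with h0 | hpos
  · obtain ⟨k, hk⟩ := X.exists_nef h0.symm
    have h1 := X.miyaoka _ hk
    have h2 : X.C (X.N + k • X.Y.F) (X.N + k • X.Y.F) = X.C X.N X.N := by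
      rw [X.C_add, X.C_smul, X.C_symm X.N, X.C_add, X.C_smul, X.C_symm X.Y.F (X.N + _),
        X.C_add, X.C_smul, X.C_symm X.Y.F X.N, X.C_N, X.C_F]
      ring
    rw [h2] at h1
    have h3 := X.chi_eq 1
    rw [X.chi_len 1 one_pos, ← h0] at h3
    have h4 : (0 : ℝ) ≤ X.len 1 := Nat.cast_nonneg _
    have h5 : 0 ≤ X.C X.N X.N * (X.m * ((1 : ℕ) : ℝ)) ^ 2 := mul_nonneg h1 (sq_nonneg _)
    rw [zero_mul, zero_div, zero_add] at h3
    simp only [Nat.cast_one, mul_one] at h3 h5
    linarith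
  · obtain ⟨n, hn⟩ := exists_nat_gt (max 1 (- X.C X.N X.N / X.Y.I X.N X.N X.N X.N))
    have hn1 : (1 : ℝ) < n := (le_max_left _ _).trans_lt hn
    have hn2 : - X.C X.N X.N / X.Y.I X.N X.N X.N X.N < n := (le_max_right _ _).trans_lt hn
    have hn0 : 0 < n := by
      have : (0 : ℝ) < n := by linarith
      exact_mod_cast this
    rw [div_lt_iff₀ hpos] at hn2
    have h3 := X.chi_eq n
    rw [X.chi_len n hn0] at h3
    have h4 : (0 : ℝ) ≤ X.len n := Nat.cast_nonneg _
    have hmn : (n : ℝ) ≤ (X.m * n) ^ 2 := by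
      have h6 : (n : ℝ) ≤ X.m * n := le_mul_of_one_le_left (by linarith) hm
      nlinarith
    have h5 : 0 ≤ X.Y.I X.N X.N X.N X.N * (X.m * (n : ℝ)) ^ 2 + X.C X.N X.N := by
      have := mul_le_mul_of_nonneg_left hmn hpos.le
      linarith
    have h6 : 0 ≤ (X.Y.I X.N X.N X.N X.N * (X.m * (n : ℝ)) ^ 2 + X.C X.N X.N) *
        (X.m * (n : ℝ)) ^ 2 := mul_nonneg h5 (sq_nonneg _)
    nlinarith

/-- the lengths grow like `n ^ 4` -/
theorem exists_len : ∃ a : ℝ, 0 < a ∧ ∀ᶠ n : ℕ in atTop, a * (n : ℝ) ^ 4 ≤ X.len n := by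
  have hneg := X.top_neg
  have hm : (1 : ℝ) ≤ X.m := by exact_mod_cast X.m_pos
  set T := X.Y.I X.N X.N X.N X.N with hT
  set D := |X.C X.N X.N| / 24 + X.chi 0 with hD
  have hD0 : 0 < D := add_pos_of_nonneg_of_pos (by positivity) X.chi_zero
  refine ⟨- T / 48, by linarith, ?_⟩
  obtain ⟨n₀, hn₀⟩ := exists_nat_gt (max 1 (48 * D / (- T)))
  filter_upwards [eventually_ge_atTop n₀] with n hn
  have hn' : (n₀ : ℝ) ≤ n := by exact_mod_cast hn
  have hn1 : (1 : ℝ) < n := ((le_max_left _ _).trans_lt hn₀).trans_le hn'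
  have hn2 : 48 * D / (- T) < n := ((le_max_right _ _).trans_lt hn₀).trans_le hn'
  rw [div_lt_iff₀ (by linarith)] at hn2
  have hn0 : 0 < n := by
    have : (0 : ℝ) < n := by linarith
    exact_mod_cast this
  have h3 := X.chi_eq n
  rw [X.chi_len n hn0, ← hT] at h3
  set u : ℝ := (X.m * (n : ℝ)) ^ 2 with hu
  have hu4 : (X.m * (n : ℝ)) ^ 4 = u ^ 2 := by rw [hu]; ring
  rw [hu4] at h3
  have hnu : (n : ℝ) ^ 2 ≤ u := by
    rw [hu, mul_pow]
    have : (1 : ℝ) ≤ (X.m : ℝ) ^ 2 := one_le_pow₀ hm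
    nlinarith [sq_nonneg (n : ℝ)]
  have hn_u : (n : ℝ) ≤ u := by nlinarith
  have hu1 : 1 ≤ u := by linarith
  have h4 : X.C X.N X.N * u / 24 + X.chi 0 ≤ D * u := by
    have h5 : X.C X.N X.N * u ≤ |X.C X.N X.N| * u :=
      mul_le_mul_of_nonneg_right (le_abs_self _) (by linarith)
    have h6 : X.chi 0 ≤ X.chi 0 * u := le_mul_of_one_le_right X.chi_zero.le hu1
    rw [hD]
    linarith
  have h7 : D * u ≤ - T / 48 * u ^ 2 := by
    have h8 : D ≤ - T / 48 * u := by nlinarith
    nlinarith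
  have h9 : - T / 48 * ((n : ℝ) ^ 4) ≤ - T / 48 * u ^ 2 := by
    have : (n : ℝ) ^ 4 ≤ u ^ 2 := by
      have h10 : (0 : ℝ) ≤ (n : ℝ) ^ 2 := sq_nonneg _
      nlinarith
    exact mul_le_mul_of_nonneg_left this (by linarith)
  nlinarith

end Fam

/-- The fibres over the finitely many points `p` where `R^1 π_* O(n m N)` may be different from zero for
some `n`: if `X_p` is smooth and an effective multiple of `L` exists on it, then `L` is semiample on
`X_p`, the fibration deforms to the generic fibre and `L` is semiample there. -/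
structure Fibres (X : Fam) where
  P : Type
  [fin : Fintype P]
  /-- the dimension of `H^0(X_p, n m N)` -/
  h : P → ℕ → ℕ
  /-- the restriction of `N` to no component of `X_p` is big: `N` is nef over `B` and `L^3 = 0` -/
  growth : ∀ p, ∃ c : ℝ, ∀ n : ℕ, 0 < n → (h p n : ℝ) ≤ c * (n : ℝ) ^ 2
  /-- the largest `j` such that some section of `n m N` on `X_p`, not zero, is the restriction of a
  section on the subscheme `t ^ j = 0` -/
  e : P → ℕ → ℕ
  /-- The `j`-th step in the length is the dimension of the space of the sections on `X_p` which are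
  restrictions of sections on `t ^ j = 0`. -/
  len_le : ∀ n : ℕ, 0 < n → X.len n ≤ ∑ p, h p n * e p n

attribute [instance] Fibres.fin

/-- At some point the sections lift very far. -/
theorem Fibres.steep {X : Fam} (R : Fibres X) :
    ∃ p, ∃ c : ℝ, 0 < c ∧ ∃ᶠ n : ℕ in atTop, c * (n : ℝ) ^ 2 ≤ R.e p n := by
  obtain ⟨a, ha, hlen⟩ := X.exists_len
  by_contra hcon
  push Not at hcon
  choose c hc using R.growth
  -- a common bound
  obtain ⟨g, hg⟩ : ∃ g : ℝ, 0 < g ∧ ∀ p, c p ≤ g := by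
    refine ⟨∑ p, |c p| + 1, by positivity, fun p => ?_⟩
    have h1 : |c p| ≤ ∑ p, |c p| :=
      Finset.single_le_sum (f := fun p => |c p|) (fun _ _ => abs_nonneg _) (Finset.mem_univ p)
    have h2 := le_abs_self (c p)
    linarith
  set q : ℝ := (Fintype.card R.P : ℝ) + 1 with hq
  have hq0 : 0 < q := by positivity
  have hd : 0 < a / (2 * g * q) := by
    have := hg.1
    positivity
  have hev : ∀ᶠ n : ℕ in atTop, ∀ p, (R.e p n : ℝ) < a / (2 * g * q) * (n : ℝ) ^ 2 := by
    rw [eventually_all]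
    intro p
    exact hcon p _ hd
  obtain ⟨n, ⟨hn1, hn2⟩, hn3⟩ := ((hlen.and hev).and (eventually_gt_atTop 0)).exists
  have hn0 : (0 : ℝ) < n := by exact_mod_cast hn3
  have h1 : (X.len n : ℝ) ≤ ∑ p, (R.h p n : ℝ) * (R.e p n : ℝ) := by
    exact_mod_cast R.len_le n hn3
  have h2 : ∑ p, (R.h p n : ℝ) * (R.e p n : ℝ) ≤
      ∑ _p : R.P, (g * (n : ℝ) ^ 2) * (a / (2 * g * q) * (n : ℝ) ^ 2) := by
    refine Finset.sum_le_sum fun p _ => ?_
    refine mul_le_mul ?_ (hn2 p).le (Nat.cast_nonneg _) ?_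
    · exact (hc p n hn3).trans (mul_le_mul_of_nonneg_right (hg.2 p) (sq_nonneg _))
    · have := hg.1
      positivity
  rw [Finset.sum_const, Finset.card_univ, nsmul_eq_mul] at h2
  have h3 : (Fintype.card R.P : ℝ) * ((g * (n : ℝ) ^ 2) * (a / (2 * g * q) * (n : ℝ) ^ 2)) =
      (Fintype.card R.P : ℝ) / q * (a / 2) * (n : ℝ) ^ 4 := by
    have := hg.1
    field_simp
  have h4 : (Fintype.card R.P : ℝ) / q ≤ 1 := by
    rw [div_le_one hq0, hq]
    linarith
  have h5 : (Fintype.card R.P : ℝ) / q * (a / 2) * (n : ℝ) ^ 4 ≤ 1 * (a / 2) * (n : ℝ) ^ 4 := by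
    gcongr
  have h6 : 0 < a / 2 * (n : ℝ) ^ 4 := by positivity
  linarith

/-- In particular they lift to an order which is larger than any given multiple of `n`. -/
theorem Fibres.exists_superlinear {X : Fam} (R : Fibres X) :
    ∃ p, ∀ M : ℝ, ∃ n : ℕ, 0 < n ∧ M * n < R.e p n := by
  obtain ⟨p, c, hc, h⟩ := R.steep
  refine ⟨p, fun M => ?_⟩
  obtain ⟨n₀, hn₀⟩ := exists_nat_gt (M / c)
  obtain ⟨n, hn, hn1, hn2⟩ := (h.and_eventually
    ((eventually_gt_atTop 0).and (eventually_ge_atTop n₀))).exists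
  refine ⟨n, hn1, lt_of_lt_of_le ?_ hn⟩
  have h1 : (n₀ : ℝ) ≤ n := by exact_mod_cast hn2
  have h2 : M / c < n := hn₀.trans_le h1
  rw [div_lt_iff₀ hc] at h2
  have h3 : (0 : ℝ) < n := by exact_mod_cast hn1
  nlinarith

end Pool.Agent.H18.MH
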