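import Mathlib

/-!
# MP_5ee2d0_ag, numerical dimension two: degrees on the base (Theorem H'')

Setting. `Mbar` is a normal projective variety of dimension `r + 2`, a compactification of (a finite
covering of) the moduli space of a Calabi-Yau threefold, `λ` its Hodge bundle, `A` an ample class.
`π : Y → Mbar` is a family of `K`-trivial models over the complement of a subset of codimension two,
terminal and projective over the base, with reduced fibres over the generic points of the prime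
divisors `b`; `N` is a Cartier divisor class of `Y`, nef over the base, whose restriction `L` to the
general fibre has numerical dimension two, `c₂.L = 0`, and no positive multiple of `L` is effective.
(If models with `N` nef are given for each `b` in the finite set `S` separately, then one ample class
`δ` of the general fibre is chosen, and extended over every `b` in `S` to a class in the interior of
the movable cone. After flops over these `b`, which are trivial for `N`, the class `N + ε δ`, `ε` small,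
is ample over the base at all `b` at the same time, so the models come from one projective `Y`; these
flops change neither the cohomology of `n N` on `X_b` nor its direct images.)
There are finitely many surfaces of the general fibre on which `L` is numerically trivial. On their
closures `G` in `Y` the class `N` is numerically trivial over the base (it is nef there; Zariski), so
all steps of the program for `ε G` over the base are `N`-trivial, they change neither the direct
images of `n N` nor its cohomology on `X_b`, and `G` is contracted. We replace `Y` by a terminalisation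
of the resulting model; then `N` and `H` are pull backs from this model, `H` is the pull back of five
times a relatively very ample class, `S` a general member of it.

For `n > 0` all direct images of `n N` are zero except the first, which is a torsion sheaf. `o b n`
is its length and `e b n` its exponent at `b`. We show that `e b n` is not `O(n)` at some `b` with
`λ^(r+1).b ≠ 0`. Otherwise the coefficient `β` of the determinant of cohomology is negative; but the
classes `N + H / n + k F` are nef on the fourfold over a complete intersection curve for a small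
`k`, by a comparison of slopes, and Miyaoka's inequality gives `β ≥ 0`.
-/

namespace Pool.Agent.H18.MH

/-- The fourfold `Y_T` over a smooth complete curve `T`. -/
structure Over where
  /-- real classes of divisors of `Y_T` -/
  V : Type
  /-- the sum -/
  add : V → V → V
  /-- the product of a class and a real number -/
  smul : ℝ → V → V
  /-- the intersection number of two classes with the second Chern class -/
  C : V → V → ℝ
  C_add : ∀ a b x, C (add a b) x = C a x + C b x
  C_smul : ∀ (s : ℝ) a x, C (smul s a) x = s * C a x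
  C_symm : ∀ a b, C a b = C b a
  /-- nef classes -/
  Nef : V → Prop
  /-- Miyaoka 1987; `Y_T` is terminal and projective and `K` is nef, a positive multiple of a fibre
  (`A` is sufficiently ample) -/
  miyaoka : ∀ x, Nef x → 0 ≤ C x x
  /-- a fibre -/
  F : V
  C_FF : C F F = 0
  N : V
  /-- `c₂.L = 0` -/
  C_NF : C N F = 0
  H : V
  /-- the smallest slope of a quotient of the vector bundle `π_* O(n N + H)` -/
  mu : ℕ → ℝ
  /-- Kawamata, Viehweg and Castelnuovo, Mumford: `n N + H` is generated by its sections over `T`;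
  Hartshorne: a vector bundle on a curve is nef if it has no quotient of negative slope. -/
  gen : ∀ (n : ℕ) (k : ℝ), 0 < n → 0 ≤ mu n + n * k →
    Nef (add (add N (smul (1 / (n : ℝ)) H)) (smul k F))

/-- If the smallest slope is at least `- n k` then Miyaoka's inequality holds for `N + H / n + k F`. -/
theorem Over.ineq (Y : Over) (n : ℕ) (hn : 0 < n) (k : ℝ) (hk : 0 ≤ Y.mu n + n * k) :
    0 ≤ Y.C Y.N Y.N + 2 / n * Y.C Y.N Y.H + 1 / (n : ℝ) ^ 2 * Y.C Y.H Y.H +
      2 * k / n * Y.C Y.H Y.F := by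
  have h := Y.miyaoka _ (Y.gen n k hn hk)
  have key : ∀ x, Y.C (Y.add (Y.add Y.N (Y.smul (1 / (n : ℝ)) Y.H)) (Y.smul k Y.F)) x =
      Y.C Y.N x + 1 / n * Y.C Y.H x + k * Y.C Y.F x := by
    intro x
    rw [Y.C_add, Y.C_add, Y.C_smul, Y.C_smul]
  rw [key, Y.C_symm Y.N (Y.add _ _), Y.C_symm Y.H (Y.add _ _), Y.C_symm Y.F (Y.add _ _), key, key,
    key,
    Y.C_symm Y.H Y.N, Y.C_symm Y.F Y.N, Y.C_symm Y.F Y.H, Y.C_NF, Y.C_FF] at h
  have hn0 : (n : ℝ) ≠ 0 := by exact_mod_cast hn.ne'
  have e : Y.C Y.N Y.N + 1 / n * Y.C Y.N Y.H + k * 0 +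
      1 / n * (Y.C Y.N Y.H + 1 / n * Y.C Y.H Y.H + k * Y.C Y.H Y.F) +
      k * (0 + 1 / n * Y.C Y.H Y.F + k * 0) =
      Y.C Y.N Y.N + 2 / n * Y.C Y.N Y.H + 1 / (n : ℝ) ^ 2 * Y.C Y.H Y.H +
        2 * k / n * Y.C Y.H Y.F := by
    field_simp
    ring
  rw [← e]
  exact h

/-- The degrees. `wt b` is `λ^(r+1).b`; `Lifts b n j` says that some section of `n N` on `X_b`,
not zero, is the restriction of a section on the subscheme `t ^ j = 0`. `T_m` is a very general
complete intersection curve of `r + 1` members of `|m λ + A|`; since `λ` is nef, `m λ + A` is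
generated by its sections for all `m` if `A` is a large multiple of an ample class (Fujita). -/
structure Degrees (B : Type) (wt : B → ℚ) (Lifts : B → ℕ → ℕ → Prop) where
  /-- A finite set of prime divisors outside of which the model is smooth, `N` is nef (Wilson) and all
  its positive multiples are acyclic on `X_b`. The structure is to be assumed only if this last
  property is known for the interior divisors where `N` is nef. -/
  S : Finset B
  /-- `λ` is nef -/
  wt_nonneg : ∀ b, 0 ≤ wt b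
  /-- `λ^(r+2)` -/
  top : ℝ
  /-- Griffiths, local Torelli: `λ` is big -/
  top_pos : 0 < top
  /-- the length of the first direct image of `n N` at `b` -/
  o : B → ℕ → ℕ
  /-- its exponent -/
  e : B → ℕ → ℕ
  /-- the dimension of `H^0(X_b, n N)` -/
  h : B → ℕ → ℕ
  /-- the restriction of `N` to no component of `X_b` is big, since `L^3 = 0` -/
  growth : ∀ b, ∃ c : ℝ, ∀ n : ℕ, 0 < n → (h b n : ℝ) ≤ c * (n : ℝ) ^ 2
  /-- `H^0(X_b, n N)` is the kernel of `t` on the first direct image -/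
  o_le : ∀ b (n : ℕ), 0 < n → o b n ≤ h b n * e b n
  /-- The kernel of `t ^ j` consists of the sections on `t ^ j = 0`, and `t ^ (j - 1)` is the
  restriction to `X_b`. -/
  e_lifts : ∀ b (n : ℕ), 0 < n → e b n = 0 ∨ Lifts b n (e b n)
  /-- the numbers `a.λ^(r+1)` and `a'.λ^(r+1)` -/
  α : ℝ
  β : ℝ
  /-- Snapper; Knudsen, Mumford; Deligne: the determinant of the cohomology of `n N` is a polynomial
  of degree four in `n`, by duality it is even, and it is `λ` for `n = 0` (Kollár), so it is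
  `n^4 a + n^2 a' + λ`; and it is minus the sum of the `o b n b`. -/
  det : ∀ n : ℕ, 0 < n →
    α * (n : ℝ) ^ 4 + β * (n : ℝ) ^ 2 + top = - ∑ b ∈ S, (o b n : ℝ) * wt b
  /-- the dimension of `Mbar` is `r + 2` -/
  r : ℕ
  /-- `T_m.b = (m λ + A)^(r+1).b` -/
  T : ℕ → B → ℝ
  T_nonneg : ∀ m b, 0 ≤ T m b
  T_le : ∀ b, ∃ c : ℝ, ∀ m : ℕ, 0 < m →
    T m b ≤ wt b * (m : ℝ) ^ (r + 1) + c * (m : ℝ) ^ r
  /-- the fourfold over `T_m` -/
  Y : ℕ → Over
  /-- the smallest slope of a quotient of the vector bundle `π_* O_S(n N + H)` on `T_m` -/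
  muS : ℕ → ℕ → ℝ
  /-- `N` is ample on the general fibre of the image of `S` in the contraction (a general member of
  `|H|` on the image contains no curve of degree zero), so `N + c m^(r+1) F` is nef on the part of `S`
  over `T_m` for some `c`, and relatively big. Fujita, Kawamata, Viehweg: the direct image of the
  product of the relative dualizing sheaf of `S`, which is `H + λ`, and a nef and relatively big line
  bundle is nef, it has no quotients of negative slope. -/
  kv : ∃ c : ℝ, ∀ m n : ℕ, 0 < m → 0 < n → - (c * n * (m : ℝ) ^ (r + 1)) ≤ muS m n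
  /-- The first direct image of `n N` is the cokernel of the inclusion of `π_* O(n N + H)` in
  `π_* O_S(n N + H)`, also over `T_m`, which is very general, because the higher ones are zero; it is
  killed by the product of the `e b n` th powers of the equations of the `b`, and a subsheaf of full
  rank has no larger minimal slope. -/
  sub : ∀ m n : ℕ, 0 < m → 0 < n → muS m n - ∑ b ∈ S, (e b n : ℝ) * T m b ≤ (Y m).mu n
  /-- Riemann-Roch on the fourfold over `T_m`: `c₂.N^2 = 24 a'.T_m` -/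
  cNN : ∃ c : ℝ, ∀ m : ℕ, 0 < m →
    (Y m).C (Y m).N (Y m).N ≤ 24 * β * (m : ℝ) ^ (r + 1) + c * (m : ℝ) ^ r
  /-- degrees of divisor classes of `Mbar` on `T_m` -/
  cNH : ∃ c : ℝ, ∀ m : ℕ, 0 < m → (Y m).C (Y m).N (Y m).H ≤ c * (m : ℝ) ^ (r + 1)
  cHH : ∃ c : ℝ, ∀ m : ℕ, 0 < m → (Y m).C (Y m).H (Y m).H ≤ c * (m : ℝ) ^ (r + 1)
  /-- `c₂.H` on the general fibre -/
  cHF : ∃ c : ℝ, ∀ m : ℕ, 0 < m → (Y m).C (Y m).H (Y m).F ≤ c

namespace Degrees

variable {B : Type} {wt : B → ℚ} {Lifts : B → ℕ → ℕ → Prop}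

/-- a common positive bound -/
theorem exists_bound (s : Finset B) (c : B → ℝ) : ∃ g : ℝ, 0 < g ∧ ∀ i ∈ s, c i ≤ g := by
  refine ⟨∑ i ∈ s, |c i| + 1, by positivity, fun i hi => ?_⟩
  have h1 : |c i| ≤ ∑ i ∈ s, |c i| :=
    Finset.single_le_sum (f := fun i => |c i|) (fun _ _ => abs_nonneg _) hi
  have h2 := le_abs_self (c i)
  linarith

variable (D : Degrees B wt Lifts)

include D in
theorem wt0 (b : B) : (0 : ℝ) ≤ wt b := by exact_mod_cast D.wt_nonneg b

/-- If the exponents at the divisors of positive weight are `O(n)`, then `β < 0`. -/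
theorem beta_neg (he : ∀ b, wt b ≠ 0 → ∃ c : ℝ, ∀ n : ℕ, 0 < n → (D.e b n : ℝ) ≤ c * n) :
    D.β < 0 := by
  -- the sum is `O(n^3)`
  have h1 : ∀ b, ∃ c : ℝ, ∀ n : ℕ, 0 < n → (D.o b n : ℝ) * wt b ≤ c * (n : ℝ) ^ 3 := by
    intro b
    by_cases hb : wt b = 0
    · refine ⟨0, fun n _ => ?_⟩
      rw [hb]
      simp
    · obtain ⟨c, hc⟩ := he b hb
      obtain ⟨g, hg⟩ := D.growth b
      refine ⟨|g| * |c| * wt b, fun n hn => ?_⟩
      have h2 : (D.o b n : ℝ) ≤ (D.h b n : ℝ) * (D.e b n : ℝ) := by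
        exact_mod_cast D.o_le b n hn
      have hn0 : (0 : ℝ) ≤ n := Nat.cast_nonneg n
      have h3 : (D.h b n : ℝ) ≤ |g| * (n : ℝ) ^ 2 :=
        (hg n hn).trans (mul_le_mul_of_nonneg_right (le_abs_self g) (sq_nonneg _))
      have h4 : (D.e b n : ℝ) ≤ |c| * n :=
        (hc n hn).trans (mul_le_mul_of_nonneg_right (le_abs_self c) hn0)
      have h5 : (D.h b n : ℝ) * (D.e b n : ℝ) ≤ (|g| * (n : ℝ) ^ 2) * (|c| * n) :=
        mul_le_mul h3 h4 (Nat.cast_nonneg _) (by positivity)
      have h6 : (D.o b n : ℝ) ≤ |g| * |c| * (n : ℝ) ^ 3 := by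
        refine (h2.trans h5).trans (le_of_eq ?_)
        ring
      calc (D.o b n : ℝ) * wt b ≤ |g| * |c| * (n : ℝ) ^ 3 * wt b :=
            mul_le_mul_of_nonneg_right h6 (D.wt0 b)
        _ = |g| * |c| * wt b * (n : ℝ) ^ 3 := by ring
  choose c hc using h1
  obtain ⟨g, hg0, hg⟩ := exists_bound D.S c
  have hlow : ∀ n : ℕ, 0 < n → - (D.S.card * g * (n : ℝ) ^ 3) ≤
      D.α * (n : ℝ) ^ 4 + D.β * (n : ℝ) ^ 2 + D.top := by
    intro n hn
    rw [D.det n hn]
    have h2 : ∑ b ∈ D.S, (D.o b n : ℝ) * wt b ≤ ∑ _b ∈ D.S, g * (n : ℝ) ^ 3 := by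
      refine Finset.sum_le_sum fun b hb => (hc b n hn).trans ?_
      exact mul_le_mul_of_nonneg_right (hg b hb) (by positivity)
    rw [Finset.sum_const, nsmul_eq_mul] at h2
    linarith
  have hup : ∀ n : ℕ, 0 < n → D.α * (n : ℝ) ^ 4 + D.β * (n : ℝ) ^ 2 + D.top ≤ 0 := by
    intro n hn
    rw [D.det n hn]
    have : 0 ≤ ∑ b ∈ D.S, (D.o b n : ℝ) * wt b :=
      Finset.sum_nonneg fun b _ => mul_nonneg (Nat.cast_nonneg _) (D.wt0 b)
    linarith
  have htop := D.top_pos
  -- the leading coefficient is zero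
  have h0 : D.α = 0 := by
    rcases lt_trichotomy D.α 0 with hneg | h | hpos
    · exfalso
      set G : ℝ := D.S.card * g with hG
      have hG0 : 0 ≤ G := by positivity
      obtain ⟨n, hn⟩ := exists_nat_gt (max 1 ((G + |D.β| + D.top) / (- D.α)))
      have hn1 : (1 : ℝ) < n := (le_max_left _ _).trans_lt hn
      have hn2 : (G + |D.β| + D.top) / (- D.α) < n := (le_max_right _ _).trans_lt hn
      rw [div_lt_iff₀ (by linarith)] at hn2
      have hn0 : 0 < n := by
        have : (0 : ℝ) < n := by linarith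
        exact_mod_cast this
      have h := hlow n hn0
      have h3 : (0 : ℝ) < (n : ℝ) ^ 3 := by positivity
      have h4 : D.β * (n : ℝ) ^ 2 ≤ |D.β| * (n : ℝ) ^ 3 := by
        have h5 : D.β * (n : ℝ) ^ 2 ≤ |D.β| * (n : ℝ) ^ 2 :=
          mul_le_mul_of_nonneg_right (le_abs_self _) (sq_nonneg _)
        have h6 : (n : ℝ) ^ 2 ≤ (n : ℝ) ^ 3 := pow_le_pow_right₀ hn1.le (by norm_num)
        exact h5.trans (mul_le_mul_of_nonneg_left h6 (abs_nonneg _))
      have h7 : D.top ≤ D.top * (n : ℝ) ^ 3 :=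
        le_mul_of_one_le_right htop.le (one_le_pow₀ hn1.le)
      have h8 : (G + |D.β| + D.top) * (n : ℝ) ^ 3 < (n * - D.α) * (n : ℝ) ^ 3 :=
        mul_lt_mul_of_pos_right hn2 h3
      have h9 : (n * - D.α) * (n : ℝ) ^ 3 = - (D.α * (n : ℝ) ^ 4) := by ring
      linarith
    · exact h
    · exfalso
      obtain ⟨n, hn⟩ := exists_nat_gt (max 1 (|D.β| / D.α))
      have hn1 : (1 : ℝ) < n := (le_max_left _ _).trans_lt hn
      have hn2 : |D.β| / D.α < n := (le_max_right _ _).trans_lt hn
      rw [div_lt_iff₀ hpos] at hn2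
      have hn0 : 0 < n := by
        have : (0 : ℝ) < n := by linarith
        exact_mod_cast this
      have h := hup n hn0
      have h3 : - (|D.β| * (n : ℝ) ^ 2) ≤ D.β * (n : ℝ) ^ 2 := by
        have := mul_le_mul_of_nonneg_right (neg_abs_le D.β) (sq_nonneg (n : ℝ))
        linarith
      have h4 : |D.β| * (n : ℝ) ^ 2 ≤ (n * D.α) * (n : ℝ) ^ 2 :=
        mul_le_mul_of_nonneg_right hn2.le (sq_nonneg _)
      have h5 : (n * D.α) * (n : ℝ) ^ 2 ≤ D.α * (n : ℝ) ^ 4 := by
        have h6 : (n : ℝ) ^ 3 ≤ (n : ℝ) ^ 4 := pow_le_pow_right₀ hn1.le (by norm_num)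
        have h7 := mul_le_mul_of_nonneg_left h6 hpos.le
        calc (n * D.α) * (n : ℝ) ^ 2 = D.α * (n : ℝ) ^ 3 := by ring
          _ ≤ _ := h7
      linarith
  have h := hup 1 one_pos
  rw [h0] at h
  simp only [Nat.cast_one, one_pow, mul_one, zero_add] at h
  linarith

/-- The exponents cannot be `O(n)` at all the divisors of positive weight. -/
theorem false_of_exponents
    (he : ∀ b, wt b ≠ 0 → ∃ c : ℝ, ∀ n : ℕ, 0 < n → (D.e b n : ℝ) ≤ c * n) : False := by
  have hβ := D.beta_neg he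
  obtain ⟨k₁, hk₁⟩ := D.kv
  obtain ⟨c₁, hc₁⟩ := D.cNN
  obtain ⟨c₂, hc₂⟩ := D.cNH
  obtain ⟨c₃, hc₃⟩ := D.cHH
  obtain ⟨c₄, hc₄⟩ := D.cHF
  choose t ht using D.T_le
  -- the sum over the divisors
  have h1 : ∀ b, ∃ g : ℝ, ∃ E : ℕ → ℝ, 0 ≤ g ∧ (∀ n, 0 ≤ E n) ∧ ∀ m n : ℕ, 0 < m → 0 < n →
      (D.e b n : ℝ) * D.T m b ≤ g * n * (m : ℝ) ^ (D.r + 1) + E n * (m : ℝ) ^ D.r := by
    intro b
    by_cases hb : wt b = 0
    · refine ⟨0, fun n => D.e b n * |t b|, le_rfl, fun n => by positivity, fun m n hm hn => ?_⟩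
      have h2 := ht b m hm
      rw [hb, Rat.cast_zero, zero_mul, zero_add] at h2
      have h3 : D.T m b ≤ |t b| * (m : ℝ) ^ D.r := by
        have h4 : t b * (m : ℝ) ^ D.r ≤ |t b| * (m : ℝ) ^ D.r :=
          mul_le_mul_of_nonneg_right (le_abs_self _) (by positivity)
        linarith
      have h5 := mul_le_mul_of_nonneg_left h3 (Nat.cast_nonneg (D.e b n) : (0 : ℝ) ≤ D.e b n)
      refine h5.trans (le_of_eq ?_)
      ring
    · obtain ⟨c, hc⟩ := he b hb
      refine ⟨|c| * (wt b + |t b|), fun _ => 0, ?_, fun _ => le_rfl, fun m n hm hn => ?_⟩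
      · have := D.wt0 b
        positivity
      · have hm1 : (1 : ℝ) ≤ m := by exact_mod_cast hm
        have h2 : D.T m b ≤ (wt b + |t b|) * (m : ℝ) ^ (D.r + 1) := by
          have h3 := ht b m hm
          have h4 : t b * (m : ℝ) ^ D.r ≤ |t b| * (m : ℝ) ^ (D.r + 1) := by
            have h5 : t b * (m : ℝ) ^ D.r ≤ |t b| * (m : ℝ) ^ D.r :=
              mul_le_mul_of_nonneg_right (le_abs_self _) (by positivity)
            have h6 : (m : ℝ) ^ D.r ≤ (m : ℝ) ^ (D.r + 1) :=
              pow_le_pow_right₀ hm1 (Nat.le_succ _)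
            exact h5.trans (mul_le_mul_of_nonneg_left h6 (abs_nonneg _))
          rw [add_mul]
          linarith
        have h3 : (D.e b n : ℝ) ≤ |c| * n :=
          (hc n hn).trans (mul_le_mul_of_nonneg_right (le_abs_self c) (Nat.cast_nonneg _))
        have h4 := mul_le_mul h3 h2 (D.T_nonneg m b) (by positivity)
        refine h4.trans (le_of_eq ?_)
        ring
  choose g E hg0 hE0 hgE using h1
  set G : ℝ := ∑ b ∈ D.S, g b with hG
  have hG0 : 0 ≤ G := Finset.sum_nonneg fun b _ => hg0 b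
  let EE : ℕ → ℝ := fun n => ∑ b ∈ D.S, E b n
  have hEE0 : ∀ n, 0 ≤ EE n := fun n => Finset.sum_nonneg fun b _ => hE0 b n
  have hsum : ∀ m n : ℕ, 0 < m → 0 < n → ∑ b ∈ D.S, (D.e b n : ℝ) * D.T m b ≤
      G * n * (m : ℝ) ^ (D.r + 1) + EE n * (m : ℝ) ^ D.r := by
    intro m n hm hn
    refine (Finset.sum_le_sum fun b _ => hgE b m n hm hn).trans (le_of_eq ?_)
    rw [Finset.sum_add_distrib, hG, Finset.sum_mul, Finset.sum_mul, Finset.sum_mul]
  -- the inequality of Miyaoka on the fourfold over `T_m`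
  have hmain : ∀ m n : ℕ, 0 < m → 0 < n →
      0 ≤ 24 * D.β * (m : ℝ) ^ (D.r + 1) + |c₁| * (m : ℝ) ^ D.r +
        2 / n * (|c₂| * (m : ℝ) ^ (D.r + 1)) + 1 / n * (|c₃| * (m : ℝ) ^ (D.r + 1)) +
        2 / n * (((|k₁| + G) * (m : ℝ) ^ (D.r + 1) + EE n * (m : ℝ) ^ D.r) * |c₄|) := by
    intro m n hm hn
    have hn1 : (1 : ℝ) ≤ n := by exact_mod_cast hn
    have hn0 : (0 : ℝ) < n := by linarith
    have hM : (0 : ℝ) ≤ (m : ℝ) ^ (D.r + 1) := by positivity
    have hM' : (0 : ℝ) ≤ (m : ℝ) ^ D.r := by positivity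
    set K : ℝ := (|k₁| + G) * (m : ℝ) ^ (D.r + 1) + EE n * (m : ℝ) ^ D.r with hK
    have hK0 : 0 ≤ K := by
      have := hEE0 n
      positivity
    have hmu : 0 ≤ (D.Y m).mu n + n * K := by
      have a1 := D.sub m n hm hn
      have a2 := hk₁ m n hm hn
      have a3 := hsum m n hm hn
      have a4 : k₁ * n * (m : ℝ) ^ (D.r + 1) ≤ |k₁| * n * (m : ℝ) ^ (D.r + 1) := by
        have : k₁ ≤ |k₁| := le_abs_self _
        gcongr
      have a5 : EE n * (m : ℝ) ^ D.r ≤ n * (EE n * (m : ℝ) ^ D.r) :=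
        le_mul_of_one_le_left (mul_nonneg (hEE0 n) hM') hn1
      have a6 : n * K = |k₁| * n * (m : ℝ) ^ (D.r + 1) + G * n * (m : ℝ) ^ (D.r + 1) +
          n * (EE n * (m : ℝ) ^ D.r) := by
        rw [hK]
        ring
      rw [a6]
      linarith
    have h := (D.Y m).ineq n hn K hmu
    have b1 := hc₁ m hm
    have b1' : c₁ * (m : ℝ) ^ D.r ≤ |c₁| * (m : ℝ) ^ D.r :=
      mul_le_mul_of_nonneg_right (le_abs_self _) hM'
    have b2 : 2 / n * (D.Y m).C (D.Y m).N (D.Y m).H ≤ 2 / n * (|c₂| * (m : ℝ) ^ (D.r + 1)) := by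
      refine mul_le_mul_of_nonneg_left ((hc₂ m hm).trans ?_) (by positivity)
      exact mul_le_mul_of_nonneg_right (le_abs_self _) hM
    have b3 : 1 / (n : ℝ) ^ 2 * (D.Y m).C (D.Y m).H (D.Y m).H ≤
        1 / n * (|c₃| * (m : ℝ) ^ (D.r + 1)) := by
      have b4 : (D.Y m).C (D.Y m).H (D.Y m).H ≤ |c₃| * (m : ℝ) ^ (D.r + 1) :=
        (hc₃ m hm).trans (mul_le_mul_of_nonneg_right (le_abs_self _) hM)
      have b5 : 1 / (n : ℝ) ^ 2 ≤ 1 / n := by
        apply one_div_le_one_div_of_le hn0
        nlinarith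
      calc 1 / (n : ℝ) ^ 2 * (D.Y m).C (D.Y m).H (D.Y m).H
          ≤ 1 / (n : ℝ) ^ 2 * (|c₃| * (m : ℝ) ^ (D.r + 1)) :=
            mul_le_mul_of_nonneg_left b4 (by positivity)
        _ ≤ 1 / n * (|c₃| * (m : ℝ) ^ (D.r + 1)) :=
            mul_le_mul_of_nonneg_right b5 (by positivity)
    have b6 : 2 * K / n * (D.Y m).C (D.Y m).H (D.Y m).F ≤ 2 / n * (K * |c₄|) := by
      have b7 : (D.Y m).C (D.Y m).H (D.Y m).F ≤ |c₄| := (hc₄ m hm).trans (le_abs_self _)
      calc 2 * K / n * (D.Y m).C (D.Y m).H (D.Y m).F ≤ 2 * K / n * |c₄| :=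
            mul_le_mul_of_nonneg_left b7 (by positivity)
        _ = 2 / n * (K * |c₄|) := by ring
    linarith
  -- choose `n`, then `m`
  obtain ⟨n, hn⟩ := exists_nat_gt (max 1 ((2 * |c₂| + |c₃| + 2 * (|k₁| + G) * |c₄|) / (- 8 * D.β)))
  have hn1 : (1 : ℝ) < n := (le_max_left _ _).trans_lt hn
  have hn2 := (le_max_right _ _).trans_lt hn
  rw [div_lt_iff₀ (by linarith)] at hn2
  have hn0 : 0 < n := by
    have : (0 : ℝ) < n := by linarith
    exact_mod_cast this
  obtain ⟨m, hm⟩ := exists_nat_gt (max 1 ((|c₁| + 2 / n * (EE n * |c₄|)) / (- 8 * D.β)))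
  have hm1 : (1 : ℝ) < m := (le_max_left _ _).trans_lt hm
  have hm2 := (le_max_right _ _).trans_lt hm
  rw [div_lt_iff₀ (by linarith)] at hm2
  have hm0 : 0 < m := by
    have : (0 : ℝ) < m := by linarith
    exact_mod_cast this
  have h := hmain m n hm0 hn0
  have hnR : (0 : ℝ) < n := by linarith
  have hM' : (0 : ℝ) < (m : ℝ) ^ D.r := by positivity
  have hM : (m : ℝ) ^ (D.r + 1) = m * (m : ℝ) ^ D.r := by ring
  have hMpos : (0 : ℝ) < (m : ℝ) ^ (D.r + 1) := by positivity
  have e1 : (2 * |c₂| + |c₃| + 2 * (|k₁| + G) * |c₄|) / n ≤ - 8 * D.β := by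
    rw [div_le_iff₀ hnR]
    linarith
  have e2 : (2 * |c₂| + |c₃| + 2 * (|k₁| + G) * |c₄|) / n * (m : ℝ) ^ (D.r + 1) ≤
      - 8 * D.β * (m : ℝ) ^ (D.r + 1) := mul_le_mul_of_nonneg_right e1 hMpos.le
  have e3 : (|c₁| + 2 / n * (EE n * |c₄|)) * (m : ℝ) ^ D.r ≤
      - 8 * D.β * (m : ℝ) ^ (D.r + 1) := by
    have := mul_le_mul_of_nonneg_right hm2.le hM'.le
    rw [hM]
    calc _ ≤ _ := this
      _ = _ := by ring
  have e4 : 24 * D.β * (m : ℝ) ^ (D.r + 1) + |c₁| * (m : ℝ) ^ D.r +
        2 / n * (|c₂| * (m : ℝ) ^ (D.r + 1)) + 1 / n * (|c₃| * (m : ℝ) ^ (D.r + 1)) +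
        2 / n * (((|k₁| + G) * (m : ℝ) ^ (D.r + 1) + EE n * (m : ℝ) ^ D.r) * |c₄|) =
      24 * D.β * (m : ℝ) ^ (D.r + 1) +
        (2 * |c₂| + |c₃| + 2 * (|k₁| + G) * |c₄|) / n * (m : ℝ) ^ (D.r + 1) +
        (|c₁| + 2 / n * (EE n * |c₄|)) * (m : ℝ) ^ D.r := by
    ring
  rw [e4] at h
  have e5 : D.β * (m : ℝ) ^ (D.r + 1) < 0 := mul_neg_of_neg_of_pos hβ hMpos
  linarith

include D in
/-- If at every prime divisor of nonzero weight the orders to which sections of `n N` lift are `O(n)`,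
there is a contradiction. -/
theorem false (he : ∀ b, wt b ≠ 0 → ∃ c : ℕ, ∀ n j : ℕ, 0 < n → Lifts b n j → j ≤ c * n) :
    False := by
  refine D.false_of_exponents fun b hb => ?_
  obtain ⟨c, hc⟩ := he b hb
  refine ⟨c, fun n hn => ?_⟩
  rcases D.e_lifts b n hn with h | h
  · rw [h]
    simp only [Nat.cast_zero]
    positivity
  · exact_mod_cast hc n _ hn h

end Degrees

end Pool.Agent.H18.MH
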